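import Pool.Agent.Lib.MP_be1941_al.X.SpecT1B

/-!
# MP_be1941_al, exact bound, block U: structure of the tight case (EXACT.md 7, 9.2 - 9.4)

Every Spec below is a module; the complete proof is in its docstring. File `X/Xxx.lean`,
`import Pool.Agent.Lib.MP_be1941_al.XV.SpecV`, namespace `Pool.Agent.Lib.MPbe1941.X`,
`theorem specXXX (hYYY : SpecYYY) .. : SpecXXX`; own lemmas in the namespace
`Pool.Agent.Lib.MPbe1941.X.XXXM`. Owner of the block: helper69.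

The setting is helper66's `TS H X p C T` (SpecT1B); `kA H T v = A(v)`, `kM C T v = M(v)`,
`PiK H X T = Π_K`, `setA`, `setM` for states. CNB: `|A(v)| ≤ |M(v)|`, `Π_K ⊆ A(v)` for `v ≠ 0`.
-/

set_option autoImplicit false

namespace Pool.Agent.Lib.MPbe1941.XV

open Pool.Agent.Lib.MPbe1941 Pool.Agent.Lib.MPbe1941.X

/-- `Π_N`: the primes `r ∈ T` such that the Sylow `r`-subgroup is normal in `H`, abelian, contained in
`C`. -/
noncomputable def PiN {H : Type} [Group H] (C : Subgroup H) (T : Finset ℕ) : Finset ℕ :=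
  open Classical in T.filter fun r =>
    ∃ S : Subgroup H, SylIn r ⊤ S ∧ S.Normal ∧ S ≤ C ∧ ∀ x ∈ S, ∀ y ∈ S, x * y = y * x

/-- The data of a clean vector `lam` with cyclic `D` (`D` the product of the `D_r`,
`r ∈ M(lam)`; all the `r ∈ M(lam)` are good). Last field: `S` a normal `l`-subgroup of `H` in `C`, `l ∣ |D|`;
its elements commuting with the Sylow subgroups `R` fix `lam` (`PRP.odd`). -/
structure CLD {H X : Type} [Group H] [AddCommGroup X] [DistribMulAction H X] (C : Subgroup H)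
    (T : Finset ℕ) (lam : X) (D : Subgroup H) : Prop where
  ne0 : lam ≠ 0
  Dn : D.Normal
  DC : D ≤ C
  cyc : ∃ c ∈ D, ∀ x ∈ D, ∃ n : ℤ, x = c ^ n
  le : ∀ r ∈ T, ∀ R : Subgroup H, MiH C lam r R →
    Dr H r ≤ D ∧ (∀ g ∈ Or H r, ∃ d ∈ Dr H r, ∃ t ∈ R, g = d * t) ∧ ¬ r ∣ Nat.card D ∧
      (∃ t ∈ R, ∃ x ∈ D, t * x ≠ x * t) ∧ (∀ x ∈ Dr H r, (∀ t ∈ R, t * x = x * t) → x = 1) ∧
      Dr H r ≠ ⊥
  cen : ∀ x ∈ D, (∀ r ∈ T, ∀ R : Subgroup H, MiH C lam r R → ∀ t ∈ R, t * x = x * t) → x = 1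
  fit : ∀ l, l.Prime → l ∣ Nat.card D → ∀ S : Subgroup H, S.Normal → S ≤ C → IsPGroup l S →
    ∀ s ∈ S, (∀ r ∈ T, ∀ R : Subgroup H, MiH C lam r R → ∀ t ∈ R, t * s = s * t) → s • lam = lam

/-- **UCL** [200 lines]. The clean data. (hyps: TPS, PDB, PDC, RLO, DCY)
PROOF. `D := sSup {Dr H r}`, `r ∈ T` good for `lam` (as in DCY); `D ≤ h.ps.D lam`, abelian, `≤ C`; normal: sup of normal
subgroups. `cyc`: DCY. `le`: `MiH` gives `Gd` (`Clean`), TPS, PDB: `C_{D_r}(R) = 1`, `D_r ≠ 1` (so `R` moves some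
`x ∈ D_r ≤ D`), RLO: `Or = Dr R`; `r ∤ |Fit C|` (`PRP.cop`), `D ≤ Fit C` (`Gd`). `cen`: let `x ≠ 1`; a power `y` of `x` has prime
order `l`. `|D|` divides the product of the `|D_r|`, so `l ∣ |D_r|` for some good `r ∈ T`; `D` is cyclic, it has only
one subgroup of order `l`: `y ∈ D_r`; `y` commutes with `R`: `y = 1`. `fit`: `l ∣ |D_r|` for some good `r ∈ T` with `R`; if `R` centralises
`Oc l C` then (PDB (7)) it commutes with the `l`-elements of `D_r`, which are `1`: no. So `NtOn R (Oc l C)`, `l ≠ 2` (`spn`), and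
`S ≤ Oc l C`; `PRP.odd`: elements of `Oc l C` commuting with `R` fix `lam`. -/
def SpecUCL : Prop :=
  ∀ (H X : Type) [Group H] [AddCommGroup X] [DistribMulAction H X] (p : ℕ) (C : Subgroup H)
    (T : Finset ℕ), TS H X p C T → PRP H X C T → ∀ v : X, Clean C T v →
      CLD C T v (sSup {K | ∃ r ∈ T, ∃ R, Gd C v r R ∧ K = Dr H r})

/-- (P'): a normal subgroup of prime index `s` has order prime to `s`, and `s ∈ T`. -/
def PIx (H : Type) [Group H] (T : Finset ℕ) : Prop :=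
  ∀ N : Subgroup H, N.Normal → N.index.Prime → N.index ∈ T ∧ ¬ N.index ∣ Nat.card N

/-- The structure (S): `H = (D ⋊ R) × H₁`, see EXACT.md section 7. The set `Π = M(lam)` is the set of
the primes dividing `|R|`. -/
structure STR {H X : Type} [Group H] [AddCommGroup X] [DistribMulAction H X] (C : Subgroup H)
    (T : Finset ℕ) (lam : X) (D R H₁ : Subgroup H) : Prop where
  A_eq : kA H T lam = PiN C T
  K_eq : PiK H X T = PiN C T
  M_eq : ∀ r, r ∈ kM C T lam ↔ r.Prime ∧ r ∣ Nat.card R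
  card : (kM C T lam).card = (PiN C T).card
  ne : 0 < (PiN C T).card
  Rfix : ∀ x ∈ R, x • lam = lam
  RC : R ≤ C
  Rcomm : ∀ x ∈ R, ∀ y ∈ R, x * y = y * x
  Rsyl : ∀ r, r.Prime → r ∣ Nat.card R → r ∈ T ∧ ¬ r ^ 2 ∣ Nat.card H ∧
    ∃ S : Subgroup H, S ≤ R ∧ MiH C lam r S ∧ Nat.card S = r
  copD : Nat.Coprime (Nat.card R) (Nat.card D)
  cop1 : Nat.Coprime (Nat.card R) (Nat.card H₁)
  H1D : ∀ y ∈ H₁, ∀ x ∈ D, y * x = x * y
  H1R : ∀ y ∈ H₁, ∀ x ∈ R, y * x = x * y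
  D1 : D ⊓ H₁ = ⊥
  gen : ∀ h : H, ∃ d ∈ D, ∃ x ∈ R, ∃ y ∈ H₁, h = d * x * y
  cenD : ∀ h : H, (∀ x ∈ D, h * x = x * h) ↔ ∃ d ∈ D, ∃ y ∈ H₁, h = d * y
  cenR : ∀ x ∈ D, (∀ s ∈ R, s * x = x * s) → x = 1
  faiR : ∀ x ∈ R, (∀ d ∈ D, x * d = d * x) → x = 1
  stab : ∀ h : H, h • lam = lam → ∃ x ∈ R, ∃ y ∈ H₁, y • lam = lam ∧ h = x * y

/-- **UMA** [200 lines]. EXACT.md 7.1. `Π_K = Π_N`, and `r ∈ M(lam)` iff no Sylow `r`-subgroup centralises `D`.
(hyps: FRA, UCO)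
PROOF. `D` is cyclic: let `bet` be a linear character of `D` with `bet x = 1` only for `x = 1` (generator of `D` to a
primitive `|D|`-th root of unity). `h` fixes `bet` iff `h` commutes with `D`. Let `R` be the subgroup generated by the
`S` with `MiH C lam r S`, `r ∈ T` (UCO: the primes dividing `|R|` are such `r`, so `|R|` is prime to `|D|`), `L := D ⊔ R = D ⊔ ⨆ Or H r` (`CLD.le`) is
normal in `H`, `C_D(R) = 1` (`CLD.cen`): FRA gives a complement of `D`, so `(0, D, bet)` is a state.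
`A := setA T 0 D bet`, `M := setM C T 0 D bet`. (i) `kM C T lam ⊆ A`: some `t ∈ S` moves `x ∈ D`; a Sylow subgroup
`g S g⁻¹` contains `g t g⁻¹`, which moves `g x g⁻¹ ∈ D`. (ii) `M ⊆ PiN`: let `S` be as in `MiS`; `S` commutes with `D`, `Z := C_H(D)` is
normal in `H`, `S` is a normal Sylow subgroup of `D S`, so for `h ∈ Z`: `h S h⁻¹ ≤ D S`, `= S`; `S` is a normal Sylow
subgroup of `Z`, so it is the set of the `r`-elements of `Z`, normal in `H`. `S` abelian: if `r ∤ |D|`, `[S,S] ≤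
S ⊓ D = 1`. If `r ∣ |D|`: we show `S ≤ D`. `N := {s ∈ S : s commutes with R}` `= C_S(L)` is
normal in `H`, fixes `lam` (field `fit`), so `N = 1` (`irr`, `faith`). For `t ∈ T'` (one of the groups generating `R`, for
`r'`), `s ∈ S`: `[t,s] ∈ S ⊓ Or H r'` (`Or` is normal) is an `r`-element of `D_{r'} T'`, `r ≠ r'` (as `r ∣ |D|`): it is in
`D_{r'} ≤ D`. So `R` acts trivially on `S/(S ⊓ D)`, `|R|` prime to `r`, and coprime action (UCO (2)) gives
`S = (S ⊓ D) N = S ⊓ D`. (iii) `PiN ⊆ PiK`: `S` normal, `≠ 1` (`tp`), faithful, no fixed vector `≠ 0`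
(`irr`); it is the only Sylow subgroup. So `|PiK| = |kM lam| ≤ |A| ≤ |M| ≤ |PiN| ≤ |PiK|`, and all inclusions are
equalities. -/
def SpecUMA : Prop :=
  ∀ (H X : Type) [Group H] [AddCommGroup X] [DistribMulAction H X] (p : ℕ) (C : Subgroup H)
    (T : Finset ℕ) (lam : X) (D : Subgroup H), TS H X p C T → CLD C T lam D →
    (kM C T lam).card = (PiK H X T).card → PiK H X T = PiN C T ∧
      ∀ r ∈ T, r ∈ kM C T lam ↔ ∀ S : Subgroup H, SylIn r ⊤ S → ∃ t ∈ S, ∃ x ∈ D, t * x ≠ x * t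

/-- **UCO** [150 lines] (pure). (1) The group generated by the Sylow subgroups `S` of `M(lam)` is abelian
and a prime dividing its order is one of these primes. (2) A cocycle lemma: `D` abelian, normalised by the
group `R` of order prime to `|D|`, `z r z⁻¹ r⁻¹ ∈ D` for all `r ∈ R`: then `d z` commutes with `R` for some `d ∈ D`.
PROOF. (1) two of them are normal Sylow subgroups of the stabiliser of `lam`: equal for the same prime,
commuting for different primes. `x ^ m = 1`, `m` the product of the orders. (2) `r z r⁻¹ = c(r) z`,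
`c(r s) = r c(s) r⁻¹ c(r)`, `e := ∏ c(s)`, `d ^ |R| = e`: `r (d z) r⁻¹ = d z`. -/
def SpecUCO : Prop :=
  (∀ (H X : Type) [Group H] [Finite H] [AddCommGroup X] [DistribMulAction H X] (C : Subgroup H)
    (T : Finset ℕ) (lam : X), (∀ r ∈ T, r.Prime) →
    (∀ x ∈ (sSup {S | ∃ r ∈ T, MiH C lam r S} : Subgroup H),
      ∀ y ∈ (sSup {S | ∃ r ∈ T, MiH C lam r S} : Subgroup H), x * y = y * x) ∧
    ∀ l, l.Prime → l ∣ Nat.card (sSup {S | ∃ r ∈ T, MiH C lam r S} : Subgroup H) →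
      l ∈ T ∧ ∃ S, MiH C lam l S ∧ S ≠ ⊥) ∧
  ∀ (H : Type) [Group H] [Finite H] (D R : Subgroup H) (z : H),
    (∀ x ∈ D, ∀ y ∈ D, x * y = y * x) → (∀ r ∈ R, ∀ x ∈ D, r * x * r⁻¹ ∈ D) →
    Nat.Coprime (Nat.card R) (Nat.card D) → (∀ r ∈ R, r * z * r⁻¹ * z⁻¹ ∈ D) →
    ∃ d ∈ D, ∀ r ∈ R, r * (d * z) = d * z * r

/-- **UST** [250 lines]. EXACT.md 7.2: the structure (S). (hyps: UMA, UCO)
PROOF. `Z := C_H(D)`, `H/Z` is abelian (`D` cyclic). For every prime `s ∣ |H:Z|` there is a normal `N ≥ Z` of index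
`s`; `PIx`: `s ∈ T` and `s² ∤ |H|`; no Sylow `s`-subgroup is in `Z`: `s ∈ M(lam)` (UMA). Conversely `r ∈ M(lam)`
divides `|H:Z|`. So for `r ∈ M(lam)`: `|S_r| = r`, `S_r ⊓ Z = 1`, `r ∤ |Z|`. `R` := the subgroup generated by the `S_r`
(UCO: abelian, the primes dividing `|R|` are the
elements of `M(lam)`), `(|R|,|Z|) = 1`. `H = Z R`: a prime dividing the index of `Z R` divides `|H:Z|`, is in `M(lam)`.
For `z ∈ Z`, `t ∈ S_r`: `[z,t] ∈ Or H r ⊓ Z = D_r` (`D_r S_r ⊓ Z = D_r (S_r ⊓ Z)`). So `R` acts trivially on `Z/D`,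
coprime (UCO (2)): `Z = D H₁`, `H₁ := {z ∈ Z : z commutes with R}`. `D ⊓ H₁ = 1` (field `cen`). `stab`: `h = d x y` fixes
`lam`, `x` does, so `z := d y ∈ Z` does: for `t ∈ S_r`: `[z,t] ∈ S_r ⊓ Z = 1`, so `z` commutes with `R`, so `d` does,
`d = 1`. -/
def SpecUST : Prop :=
  ∀ (H X : Type) [Group H] [AddCommGroup X] [DistribMulAction H X] (p : ℕ) (C : Subgroup H)
    (T : Finset ℕ) (lam : X) (D : Subgroup H), TS H X p C T → PIx H T → CLD C T lam D →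
    kA H T lam = PiK H X T → (kM C T lam).card = (PiK H X T).card →
    ∃ R H₁ : Subgroup H, STR C T lam D R H₁

/-- **UFN** [30 lines]. Output of sections 5 - 7. (hyps: CLN, CLE, UCL, UST) -/
def SpecUFN : Prop :=
  ∀ (H X : Type) [Group H] [AddCommGroup X] [DistribMulAction H X] (p : ℕ) (C : Subgroup H)
    (T : Finset ℕ), TS H X p C T → PRP H X C T → PIx H T →
    ∃ (lam : X) (D R H₁ : Subgroup H), CLD C T lam D ∧ STR C T lam D R H₁

/-- The ring `F_p[D]` of operators on `X`. -/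
def EE {H : Type} (X : Type) [Group H] [AddCommGroup X] [DistribMulAction H X] (D : Subgroup H) :
    Subring (AddMonoid.End X) :=
  Subring.closure {f | ∃ d ∈ D, ∀ x : X, f x = d • x}

/-- **UEE** [150 lines] (pure). Basic facts on the ring `F_p[D]`, `D` abelian, `p ∤ |D|`: commutative, and
there is `q` (a power of `p`) with `a ^ q = a` for all `a`; conjugation by `h`, `D` normal.
PROOF. `closure_induction`. `q := p ^ φ(|D|)` (Euler: `d ^ q = d`); `(a + b) ^ q = a ^ q + b ^ q` for commuting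
`a`, `b` in characteristic `p` (`add_pow_char_pow_of_commute`; `CharP (AddMonoid.End X) p` from `p x = 0`, `X ≠ 0`).
(3) `h a h⁻¹` is in the closure: induction. (4) induction. -/
def SpecUEE : Prop :=
  ∀ (H X : Type) [Group H] [Finite H] [AddCommGroup X] [Finite X] [DistribMulAction H X] (p : ℕ)
    (D : Subgroup H), p.Prime → (∀ v : X, p • v = 0) → (∃ v : X, v ≠ 0) → ¬ p ∣ Nat.card D →
    (∀ x ∈ D, ∀ y ∈ D, x * y = y * x) →
    (∀ a ∈ EE X D, ∀ b ∈ EE X D, a * b = b * a) ∧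
    (∃ q, 2 ≤ q ∧ ∀ a ∈ EE X D, a ^ q = a) ∧
    (∀ h : H, (∀ d ∈ D, h * d * h⁻¹ ∈ D) → ∀ a ∈ EE X D, ∃ b ∈ EE X D, ∀ x : X,
      b x = h • a (h⁻¹ • x)) ∧
    (∀ h : H, (∀ d ∈ D, h * d = d * h) → ∀ a ∈ EE X D, ∀ x : X, a (h • x) = h • a x) ∧
    ∀ d ∈ D, ∃ a ∈ EE X D, ∀ x : X, a x = d • x

/-- **UHO** [250 lines]. EXACT.md 9.2: `X` is `D`-homogeneous: `F := F_p[D]` is a field. (hyps: UEE, CNB)
PROOF. Choose an idempotent `e ∈ F` with `e lam ≠ 0` and `|e X|` minimal. (i) For `t ∈ R` let `f := t e t⁻¹`,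
`f lam = t (e lam) ≠ 0`. `e = e f + e (1-f)`: one of `e f lam`, `e (1-f) lam` is not zero. In the first case
`|e f X| ≥ |e X| = |f X|`, so `e f X = e X = f X` and `e = e f = f`. In the second case `e (1-f) X = e X`,
`e (1-f) = e`, `e f = 0`. (ii) Suppose `t e t⁻¹ ≠ e` for some `t ∈ T`, `T ≤ R` of prime order `r` (`Rsyl`;
`R` is generated by these `T`: its exponent is squarefree). So `e f = 0`. `r ∈ kA (e lam)`: a Sylow
`r`-subgroup contains a conjugate `t' = g t g⁻¹`, `t' t⁻¹ ∈ C_H(D)` (`H/C_H(D)` is abelian: `D` cyclic), so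
`t' e t'⁻¹ = f`; if `t'` fixes `e lam` then `e lam = t' e lam = f (t' lam)`, `e lam = e e lam = e f (..) = 0`.
`PiN ⊆ kA (e lam)` (normal subgroups, `irr`, `faith`, `tp`), `r ∉ PiN = kA lam`. (iii) `kM (e lam) ⊆ kM lam \ {r}`: let
`r' ∈ kM (e lam)`, `S''` the Sylow subgroup; `r' ≠ r`, `r' ∉ PiN`. Suppose `r' ∉ kM lam`, so `r' ∤ |R|`. `r' ∉ PiN = kA lam`: a Sylow
`r'`-subgroup `S'` fixes `lam`; by `stab` and orders `S' ≤ H₁`. `H₁` commutes with `F`, so `S'` fixes `e lam`, `S' = S''`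
(normal Sylow subgroup of the stabiliser). `S'` is normal in `H_lam`: `h = x y`, `x ∈ R` commutes with `S'`, `y ∈ H₁` fixes `lam`,
so `e lam`. So `r' ∈ kM lam`. (iv) `|PiN| + 1 ≤ |kA (e lam)| ≤ |kM (e lam)| ≤ |kM lam| - 1 = |PiN| - 1` by
CNB: contradiction. So `e` commutes with `R`, and with `D`, `H₁`, so with `H`: `e X` is a submodule `≠ 0`,
`e = 1`. By minimality every idempotent `e'` of `F` with `e' lam ≠ 0` is `1`; applied to `e'`, `1 - e'`: the only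
idempotents of `F` are `0`, `1`. If `a ≠ 0`: `a ^ (q-1)` is an idempotent, `≠ 0` as `a a ^ (q-1) = a`: it is `1`, so `a`
is invertible. -/
def SpecUHO : Prop :=
  ∀ (H X : Type) [Group H] [AddCommGroup X] [DistribMulAction H X] (p : ℕ) (C : Subgroup H)
    (T : Finset ℕ) (lam : X) (D R H₁ : Subgroup H), TS H X p C T → CLD C T lam D →
    STR C T lam D R H₁ →
    ∀ a ∈ EE X D, a ≠ 0 → ∃ b ∈ EE X D, b * a = 1 ∧ a * b = 1

/-- **UON** [300 lines]. EXACT.md 9.3: `dim_F X = 1`. (hyps: UEE, UHO, REL; Maschke: RB.specMAS)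
PROOF. `U := C_X(R)` (an additive subgroup, `H₁`-invariant, contains `lam`), `F₁ := {a ∈ F : a commutes with R}`,
`F₁ lam ≤ U`. (0) If `U = F₁ lam` then `F lam` is `H`-invariant: `D`, `R` clear (`R` fixes `lam` and normalises `F`), `h ∈ H₁`:
`h lam ∈ U ≤ F lam` and `h` commutes with `F`. So `F lam = X` (`irr`): done. (1) Suppose `U ≠ F₁ lam`. `J := {y ∈ H₁ : y lam = lam}`
acts trivially on `F₁ lam`. Maschke (`J`, `U`): `U = F₁ lam ⊕ U'`, `U'` `J`-invariant; `W ≤ U'` a minimal `J`-invariant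
subgroup `≠ 0`. `T' := T` minus `kM lam` minus `PiN`. REL for `J`, `C ⊓ J`, `W`, `T'`: `w`, `D₂`, `K₂`, `bet`. `w ∉ F lam`:
if `w = a lam`, `t ∈ R`: `w = t w = (t a t⁻¹) lam`, so `t a t⁻¹ = a` (field), `a ∈ F₁`, `w ∈ F₁ lam ⊓ U' = 0`. So `a lam + b w = 0`
only for `a = b = 0`. (2) `c ∈ F` with `t c t⁻¹ ≠ c` for every `1 ≠ t ∈ R`: a generator of the cyclic group `F^*`
(`t` commuting with `c` commutes with `F`, so with `D` (`faith`), `t = 1`). `s := lam + c w`. (3) `A(s) ⊇ PiN`, (normal, `irr`);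
`A(s) ⊇ kM lam`: a Sylow `r`-subgroup is `g T g⁻¹`, `g = d x y` (`gen`), `x`, `y` commute with `T`: it is `d T d⁻¹`. If it fixes `s`, `1 ≠ t ∈ T`
fixes `d⁻¹ s = δ lam + δ c w`, `δ := d⁻¹ ∈ F`: `t δ t⁻¹ = δ`, `t δ c t⁻¹ = δ c`, so `t c t⁻¹ = c`: no. (4) `r ∈ T'`, `S` a Sylow
`r`-subgroup of `H` : `r ∤ |R|`, `r ∤ |D|` (if `r ∣ |D|` the `r`-elements of `D` form a normal subgroup of `H`, in every Sylow
`r`-subgroup, without fixed vectors: `r ∈ kA lam = PiN`); so `S ≤ H₁` (write `s ∈ S` as `d x y`, modulo `D H₁` ..; or: `H₁` is normal of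
index `|D| |R|`). If `S` fixes `lam + c w`: for `g ∈ S`, `u := g lam - lam ∈ U`, `u' := g w - w ∈ U`, `u + c u' = 0`; apply `t ∈ R`:
`(t c t⁻¹ - c) u' = 0`, `u' = 0`, `u = 0`. So `S ≤ J` and `S` fixes `w`. Hence `A_J(w) ⊆ A(s)`, and `M(s) ⊓ T' ⊆ M_J(w)` (the
stabiliser of `w` in `J` fixes `s`). (5) State `(lam; D₂, bet)`: `D₂` is normal in `H_lam = R J`, complement `R K₂`. `PiN ⊆ A`;
`A_J(bet) ⊆ A`; `M ⊓ T' ⊆ M_J(bet)`. (a Sylow `r`-subgroup fixing `lam`, `r ∈ T'`, is in `J`.) (6) The last set of REL is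
empty: `T` Sylow in `J`, normal in `J`, in `C`, abelian, `r ∈ T'`: `T` is a Sylow subgroup of `H` (some Sylow subgroup of `H` is in `J` since
`r ∉ kA lam`), normal in `R J = H_lam`: `r ∈ kM lam`. (7) Sum of `TS.tight` for `(s; 1)` and `(lam; D₂, bet)`:
`|PiN| + |kM lam| + a + |PiN| + a' ≤ m + |kM lam| + m'` and `m + m' ≤ a + a' + 1`: `2 |PiN| ≤ 1`, but `PiN` is not empty. -/
def SpecUON : Prop :=
  ∀ (H X : Type) [Group H] [AddCommGroup X] [DistribMulAction H X] (p : ℕ) (C : Subgroup H)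
    (T : Finset ℕ) (lam : X) (D R H₁ : Subgroup H), TS H X p C T → CLD C T lam D →
    STR C T lam D R H₁ → ∀ x : X, ∃ a ∈ EE X D, x = a lam

/-- **UCE** [150 lines]. EXACT.md 9.4, first part. (hyps: UEE, UHO, UON)
PROOF. (1) `y ∈ H₁` acts as the scalar `a ∈ F` with `y lam = a lam` (it commutes with `F`, `X = F lam`). So the elements of `C ⊓ H₁`
commute (`faith`), `C ⊓ C_H(D) = D (C ⊓ H₁)` is abelian, normal in `H`. (2) `S ≤ C` a Sylow `r`-subgroup, `r ∤ |R|`: `S ≤ C_H(D)`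
(normal of index `|R|`: `gen`, `cenD`), so `S` is a Sylow subgroup of the abelian normal subgroup `C ⊓ C_H(D)`: normal,
abelian, `r ∈ PiN`. (3) `v ≠ 0`: `PiN ⊆ kA v`, `kM v ⊆ kM lam` (by (2), as `kM v` and `kA v` are disjoint), CNB:
`|PiN| ≤ |kA v| ≤ |kM v| ≤ |kM lam| = |PiN|`. -/
def SpecUCE : Prop :=
  ∀ (H X : Type) [Group H] [AddCommGroup X] [DistribMulAction H X] (p : ℕ) (C : Subgroup H)
    (T : Finset ℕ) (lam : X) (D R H₁ : Subgroup H), TS H X p C T → CLD C T lam D →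
    STR C T lam D R H₁ →
    (∀ x ∈ C, ∀ y ∈ C, x ∈ H₁ → y ∈ H₁ → x * y = y * x) ∧
    (∀ r ∈ T, ∀ S : Subgroup H, SylIn r ⊤ S → S ≤ C → ¬ r ∣ Nat.card R → r ∈ PiN C T) ∧
    ∀ v : X, v ≠ 0 → kA H T v = PiN C T ∧ kM C T v = kM C T lam

/-- **UNU** [250 lines]. EXACT.md 9.4, second part: `|D_r| = (q-1)/(q^{1/r}-1)`, and the field generated by a primitive `|D_r|`-th
root of unity has order `q = |X|`: if `|D_r| ∣ p ^ j - 1`, `j ≥ 1`, then `|X| ≤ p ^ j`. (hyps: UEE, UHO, UON, UCE)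
PROOF. `T ≤ R` of order `r`, `T = ⟨t⟩`. (1) By UCE every `v ≠ 0` is fixed by a Sylow `r`-subgroup `S` of `H`, normal in `H_v`, so by
exactly one. The Sylow `r`-subgroups are the `d T d⁻¹`, `d ∈ D_r`, all different: `g = d x y` as in UON (3) shows
`d ∈ D`; `d T d⁻¹ ≤ Or H r = D_r T` (normal), and two Sylow subgroups of `D_r T` are conjugate by an
element of `D_r`; `d T d⁻¹ = T`, `d ∈ D_r`: `[d,t] ∈ D_r ⊓ T = 1`, `d = 1` (`CLD.le`). So `X \ 0` is the disjoint union of the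
`C_X(d T d⁻¹) \ 0 = d C_X(T) \ 0`: `|X| - 1 = |D_r| (|C_X(T)| - 1)`. (2) `|C_X(T)|^r = |X|`: `C_X(T) = F^T lam`, and `T` acts
faithfully on the field `F` (`STR.faiR`): Artin. Elementary: `F ≅ X` by `a ↦ a lam`, `σ(a) := t a t⁻¹` is an automorphism of
the finite field `F` of order `r`, with fixed field `F^σ` of order `q₁`; `|F| = q₁^r` (`IsGaloisGroup`/`FixedPoints.finrank_eq_card`).
(3) `n := |D_r| = (q₁^r - 1)/(q₁ - 1)`, so `n² > q₁^r = |X| = p^f` (`r ≥ 2`: `n > q₁^(r-1)`). If `n ∣ p^j - 1`, then `n ∣ p^f - 1`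
and `n ∣ p^g - 1`, `g = gcd(j,f)` (`Nat.pow_sub_one_gcd_pow_sub_one`). If `g < f` then `g ≤ f/2`, `n < p^(f/2)`: contradiction. So `f ∣ j`. -/
def SpecUNU : Prop :=
  ∀ (H X : Type) [Group H] [AddCommGroup X] [DistribMulAction H X] (p : ℕ) (C : Subgroup H)
    (T : Finset ℕ) (lam : X) (D R H₁ : Subgroup H), TS H X p C T → CLD C T lam D →
    STR C T lam D R H₁ → ∀ (r : ℕ) (S : Subgroup H), r.Prime → S ≤ R →
    MiH C lam r S → r ∣ Nat.card R →
      (∃ q₁ : ℕ, q₁ ^ r = Nat.card X ∧ Nat.card X = Nat.card (Dr H r) * (q₁ - 1) + 1) ∧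
      ∀ j, 1 ≤ j → Nat.card (Dr H r) ∣ p ^ j - 1 → Nat.card X ≤ p ^ j

end Pool.Agent.Lib.MPbe1941.XV
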